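import Mathlib
import Pool.Agent.Helper297.Drc
import Pool.Agent.Helper297.Family
import Pool.Agent.Results.MP_3a192b_co.GrowthTheta

/-!
# MP_cecf76_co: large pairwise intersecting subfamilies of dense set systems

Two-sided bounds for `f(n,m,c,ε)` for all `0 < c ≤ 1/2`: the conjectured lower bound
`f(n,n,c,ε) > η n^{1/2}` holds for all these `c` (in fact with every exponent below `1`), and a
linear bound `f(n,m,c,ε) ≥ η m` fails, also for `m < n`.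
-/

namespace Pool.Agent.Results.MP_cecf76_co.TwoSided

open Finset

/-- The index set `I` is `ε`-intersecting for the sequence `A` of subsets of an `n`-set. -/
def EpsInt {n m : ℕ} (A : Fin m → Finset (Fin n)) (ε : ℝ) (I : Finset (Fin m)) : Prop :=
  ∀ i ∈ I, ∀ j ∈ I, i ≠ j → ε * (n : ℝ) < ((A i ∩ A j).card : ℝ)

/-- `f(n,m,c,ε)`: the largest integer `t` such that every sequence `A_1, …, A_m` of subsets of an
`n`-set with `|A_k| > c n` for all `k` has an `ε`-intersecting index set of size `t`. -/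
noncomputable def f (n m : ℕ) (c ε : ℝ) : ℕ :=
  sSup {t : ℕ | ∀ A : Fin m → Finset (Fin n), (∀ k, c * (n : ℝ) < ((A k).card : ℝ)) →
    ∃ I : Finset (Fin m), EpsInt A ε I ∧ I.card = t}

theorem f_isGreatest {n m : ℕ} {c ε : ℝ} (hn : 1 ≤ n) (hc : c < 1) :
    IsGreatest {t : ℕ | ∀ A : Fin m → Finset (Fin n), (∀ k, c * (n : ℝ) < ((A k).card : ℝ)) →
    ∃ I : Finset (Fin m), EpsInt A ε I ∧ I.card = t} (f n m c ε) := by
  have hne : {t : ℕ | ∀ A : Fin m → Finset (Fin n), (∀ k, c * (n : ℝ) < ((A k).card : ℝ)) →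
    ∃ I : Finset (Fin m), EpsInt A ε I ∧ I.card = t}.Nonempty :=
    ⟨0, fun A _ => ⟨∅, fun i hi => absurd hi (notMem_empty i), rfl⟩⟩
  have hbd : BddAbove {t : ℕ | ∀ A : Fin m → Finset (Fin n), (∀ k, c * (n : ℝ) < ((A k).card : ℝ)) →
    ∃ I : Finset (Fin m), EpsInt A ε I ∧ I.card = t} := by
    refine ⟨m, ?_⟩
    intro t ht
    obtain ⟨I, -, hI⟩ := ht (fun _ => univ) (by
      intro k
      simp only [Finset.card_univ, Fintype.card_fin]
      have : (1 : ℝ) ≤ (n : ℝ) := by exact_mod_cast hn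
      nlinarith)
    rw [← hI]
    simpa using Finset.card_le_univ I
  exact ⟨Nat.sSup_mem hne hbd, fun x hx => le_csSup hbd hx⟩

theorem le_f {n m : ℕ} {c ε x : ℝ} (hn : 1 ≤ n) (hc : c < 1)
    (h : ∀ A : Fin m → Finset (Fin n), (∀ k, c * (n : ℝ) < ((A k).card : ℝ)) →
      ∃ I : Finset (Fin m), EpsInt A ε I ∧ x ≤ (I.card : ℝ)) : x ≤ (f n m c ε : ℝ) := by
  have : ⌈x⌉₊ ≤ f n m c ε := by
    refine (f_isGreatest (m := m) (ε := ε) hn hc).2 ?_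
    intro A hA
    obtain ⟨I, hI, hx⟩ := h A hA
    obtain ⟨J, hJI, hJ⟩ := exists_subset_card_eq (Nat.ceil_le.2 hx)
    exact ⟨J, fun i hi j hj => hI i (hJI hi) j (hJI hj), hJ⟩
  exact Nat.ceil_le.1 this

theorem f_le {n m : ℕ} {c ε x : ℝ} (hn : 1 ≤ n) (hc : c < 1)
    (A : Fin m → Finset (Fin n)) (hA : ∀ k, c * (n : ℝ) < ((A k).card : ℝ))
    (h : ∀ I : Finset (Fin m), EpsInt A ε I → (I.card : ℝ) ≤ x) : (f n m c ε : ℝ) ≤ x := by
  obtain ⟨I, hI, hIc⟩ := (f_isGreatest (m := m) (ε := ε) hn hc).1 A hA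
  rw [← hIc]
  exact h I hI

theorem lower {c : ℝ} (hc0 : 0 < c) (hc1 : c < 1) {s : ℕ} (hs : 1 ≤ s) {ε : ℝ} (hε0 : 0 < ε)
    (hε : 2 * ε ≤ c ^ (s + 1)) {n m : ℕ} (hn : 1 ≤ n) (hm : 1 ≤ m) :
    (c / 4 * (s : ℝ)⁻¹) * m * (min (m : ℝ) (2 ^ n)) ^ (-(s : ℝ)⁻¹) ≤ (f n m c ε : ℝ) := by
  classical
  have hsR : (0 : ℝ) < (s : ℝ) := by exact_mod_cast hs
  have hnR : (1 : ℝ) ≤ (n : ℝ) := by exact_mod_cast hn
  have hmR : (1 : ℝ) ≤ (m : ℝ) := by exact_mod_cast hm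
  refine le_f hn hc1 fun A hA => ?_
  obtain ⟨x, -, hx⟩ := MP_3a192b_co.GrowthTheta.exists_chromatic A (2 * ε)
  have hxle : x ≤ MP_3a192b_co.GrowthTheta.chiStar n m c (2 * ε) :=
    (MP_3a192b_co.GrowthTheta.chiStar_isGreatest (n := n) (m := m) (c := c) (ε := 2 * ε) hn hc1).2
      ⟨A, hA, hx⟩
  have hup := MP_3a192b_co.GrowthTheta.upper hc0 hc1 hs hε hn hm
  have hcolor : (MP_3a192b_co.GrowthTheta.smallGraph A (2 * ε)).Colorable x := by
    rw [← SimpleGraph.chromaticNumber_le_iff_colorable, hx]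
  obtain ⟨g⟩ := hcolor
  set W : ℝ := min (m : ℝ) (2 ^ n) with hW
  have hW1 : 1 ≤ W := le_min hmR (one_le_pow₀ (by norm_num))
  -- a large colour class
  have hxR : (x : ℝ) ≤ (c / 4 * (s : ℝ)⁻¹)⁻¹ * W ^ ((s : ℝ)⁻¹) :=
    le_trans (by exact_mod_cast hxle) hup
  have hsum : m = ∑ b : Fin x, (univ.filter (fun i => g i = b)).card := by
    have := Finset.card_eq_sum_card_fiberwise (s := (univ : Finset (Fin m)))
      (t := (univ : Finset (Fin x))) (f := g) (by intro i _; simp)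
    simpa using this
  have hbig : ∃ b : Fin x, (m : ℝ) ≤ x * ((univ.filter (fun i => g i = b)).card : ℝ) := by
    by_contra hcon
    push Not at hcon
    have hne : (univ : Finset (Fin x)).Nonempty := ⟨g ⟨0, hm⟩, mem_univ _⟩
    have hx0 : (0 : ℝ) < (x : ℝ) := by
      have : 0 < x := (g ⟨0, hm⟩).pos
      exact_mod_cast this
    have h1 : ∑ b : Fin x, (x : ℝ) * ((univ.filter (fun i => g i = b)).card : ℝ)
        < ∑ _b : Fin x, (m : ℝ) := Finset.sum_lt_sum_of_nonempty hne fun b _ => hcon b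
    rw [← Finset.mul_sum] at h1
    have h2 : (∑ b : Fin x, ((univ.filter (fun i => g i = b)).card : ℝ)) = (m : ℝ) := by
      exact_mod_cast hsum.symm
    rw [h2] at h1
    simp at h1
  obtain ⟨b, hb⟩ := hbig
  refine ⟨univ.filter (fun i => g i = b), ?_, ?_⟩
  · intro i hi j hj hij
    simp only [Finset.mem_filter, Finset.mem_univ, true_and] at hi hj
    by_contra hlt
    push Not at hlt
    have hadj : (MP_3a192b_co.GrowthTheta.smallGraph A (2 * ε)).Adj i j := by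
      refine ⟨hij, ?_⟩
      nlinarith
    exact g.valid hadj (by rw [hi, hj])
  · set y : ℝ := ((univ.filter (fun i => g i = b)).card : ℝ) with hy
    have hy0 : 0 ≤ y := by positivity
    have hk : 0 < c / 4 * (s : ℝ)⁻¹ := by positivity
    have h1 : (m : ℝ) ≤ (c / 4 * (s : ℝ)⁻¹)⁻¹ * W ^ ((s : ℝ)⁻¹) * y :=
      hb.trans (mul_le_mul_of_nonneg_right hxR hy0)
    have hWp : 0 < W ^ ((s : ℝ)⁻¹) := by positivity
    rw [Real.rpow_neg (by positivity)]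
    calc c / 4 * (s : ℝ)⁻¹ * m * (W ^ ((s : ℝ)⁻¹))⁻¹
        ≤ c / 4 * (s : ℝ)⁻¹ * ((c / 4 * (s : ℝ)⁻¹)⁻¹ * W ^ ((s : ℝ)⁻¹) * y)
          * (W ^ ((s : ℝ)⁻¹))⁻¹ := by
          apply mul_le_mul_of_nonneg_right _ (by positivity)
          exact mul_le_mul_of_nonneg_left h1 hk.le
      _ = y := by field_simp

theorem upper {ε : ℝ} (hε : 0 < ε) (hε1 : ε ≤ 1) :
    ∃ a : ℝ, 0 < a ∧ ∃ C : ℝ, 0 < C ∧ ∀ c : ℝ, 0 < c → c ≤ 1 / 2 → ∀ n m : ℕ, 1 ≤ n → 1 ≤ m →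
      (f n m c ε : ℝ) ≤ C * m * (min (m : ℝ) (2 ^ n)) ^ (-a) := by
  obtain ⟨a, ha, C, hC, hfam⟩ := Helper297.Family.family hε hε1
  refine ⟨a, ha, C, hC, ?_⟩
  intro c hc0 hc n m hn hm
  obtain ⟨A, hA, hI⟩ := hfam n m hn hm
  have hnR : (1 : ℝ) ≤ (n : ℝ) := by exact_mod_cast hn
  refine f_le hn (by linarith) A ?_ fun I hI' => hI I fun i hi j hj hij => (hI' i hi j hj hij).le
  intro k
  have := hA k
  nlinarith

/-- **Main theorem.** Let `0 < c ≤ 1/2`.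
(1) For every `δ > 0` and all sufficiently small fixed `ε > 0` there are `a, C > 0` such that
`C⁻¹ m W^{-δ} ≤ f(n,m,c,ε) ≤ C m W^{-a}` for all `n, m ≥ 1`, where `W = min(m, 2^n)`.
(2) For every exponent `δ > 0` and all sufficiently small `ε > 0` there is `η > 0` such that
`f(n,n,c,ε) > η n^{1-δ}` for all `n ≥ 1`; the case `δ = 1/2` is the conjecture.
(3) For every fixed `ε > 0` (however small) there is no `η > 0` with `f(n,m,c,ε) ≥ η m` for all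
`1 ≤ m < n`. -/
theorem result : ∀ c : ℝ, 0 < c → c ≤ 1 / 2 →
    (∀ δ : ℝ, 0 < δ → ∃ ε₀ : ℝ, 0 < ε₀ ∧ ∀ ε : ℝ, 0 < ε → ε ≤ ε₀ →
      ∃ a : ℝ, 0 < a ∧ ∃ C : ℝ, 0 < C ∧ ∀ n m : ℕ, 1 ≤ n → 1 ≤ m →
        C⁻¹ * m * (min (m : ℝ) (2 ^ n)) ^ (-δ) ≤ (f n m c ε : ℝ) ∧
        (f n m c ε : ℝ) ≤ C * m * (min (m : ℝ) (2 ^ n)) ^ (-a)) ∧
    (∀ δ : ℝ, 0 < δ → ∃ ε₀ : ℝ, 0 < ε₀ ∧ ∀ ε : ℝ, 0 < ε → ε ≤ ε₀ →
      ∃ η : ℝ, 0 < η ∧ ∀ n : ℕ, 1 ≤ n → η * (n : ℝ) ^ (1 - δ) < (f n n c ε : ℝ)) ∧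
    (∀ ε : ℝ, 0 < ε → ¬ ∃ η : ℝ, 0 < η ∧ ∀ n m : ℕ, 1 ≤ m → m < n →
      η * (m : ℝ) ≤ (f n m c ε : ℝ)) := by
  intro c hc0 hc
  have hc1 : c < 1 := by linarith
  have h1 : ∀ δ : ℝ, 0 < δ → ∃ ε₀ : ℝ, 0 < ε₀ ∧ ∀ ε : ℝ, 0 < ε → ε ≤ ε₀ →
      ∃ a : ℝ, 0 < a ∧ ∃ C : ℝ, 0 < C ∧ ∀ n m : ℕ, 1 ≤ n → 1 ≤ m →
        C⁻¹ * m * (min (m : ℝ) (2 ^ n)) ^ (-δ) ≤ (f n m c ε : ℝ) ∧
        (f n m c ε : ℝ) ≤ C * m * (min (m : ℝ) (2 ^ n)) ^ (-a) := by
    intro δ hδ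
    obtain ⟨s, hs⟩ := exists_nat_ge (max 1 δ⁻¹)
    have hs1R : (1 : ℝ) ≤ (s : ℝ) := (le_max_left _ _).trans hs
    have hs1 : 1 ≤ s := by exact_mod_cast hs1R
    have hsδ : (s : ℝ)⁻¹ ≤ δ := by
      have : δ⁻¹ ≤ (s : ℝ) := (le_max_right _ _).trans hs
      exact inv_le_of_inv_le₀ hδ this
    refine ⟨c ^ (s + 1) / 2, by positivity, ?_⟩
    intro ε hε hεle
    have hε1 : ε ≤ 1 := by
      have : c ^ (s + 1) ≤ 1 := pow_le_one₀ hc0.le hc1.le
      linarith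
    obtain ⟨a, ha, C₁, hC₁, hup⟩ := upper hε hε1
    set C₂ : ℝ := (c / 4 * (s : ℝ)⁻¹)⁻¹ with hC₂
    have hC₂pos : 0 < C₂ := by positivity
    refine ⟨a, ha, max C₁ C₂, lt_max_of_lt_left hC₁, ?_⟩
    intro n m hn hm
    have hmR : (1 : ℝ) ≤ (m : ℝ) := by exact_mod_cast hm
    set W : ℝ := min (m : ℝ) (2 ^ n) with hW
    have hW1 : 1 ≤ W := le_min hmR (one_le_pow₀ (by norm_num))
    constructor
    · refine le_trans ?_ (lower hc0 hc1 hs1 hε (by linarith) hn hm)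
      rw [← hW]
      have e1 : (max C₁ C₂)⁻¹ ≤ c / 4 * (s : ℝ)⁻¹ := by
        have : C₂⁻¹ = c / 4 * (s : ℝ)⁻¹ := by rw [hC₂, inv_inv]
        rw [← this]
        exact inv_anti₀ hC₂pos (le_max_right _ _)
      have e2 : W ^ (-δ) ≤ W ^ (-(s : ℝ)⁻¹) :=
        Real.rpow_le_rpow_of_exponent_le hW1 (by linarith)
      have e3 : 0 ≤ c / 4 * (s : ℝ)⁻¹ := by positivity
      apply mul_le_mul _ e2 (by positivity) (by positivity)
      exact mul_le_mul_of_nonneg_right e1 (by positivity)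
    · refine (hup c hc0 hc n m hn hm).trans ?_
      apply mul_le_mul_of_nonneg_right _ (by positivity)
      exact mul_le_mul_of_nonneg_right (le_max_left _ _) (by positivity)
  refine ⟨h1, ?_, ?_⟩
  · intro δ hδ
    obtain ⟨ε₀, hε₀, h⟩ := h1 δ hδ
    refine ⟨ε₀, hε₀, fun ε hε hle => ?_⟩
    obtain ⟨a, ha, C, hC, hb⟩ := h ε hε hle
    refine ⟨C⁻¹ / 2, by positivity, fun n hn => ?_⟩
    have hnR : (1 : ℝ) ≤ (n : ℝ) := by exact_mod_cast hn
    have hmin : min (n : ℝ) (2 ^ n) = n := by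
      apply min_eq_left
      exact_mod_cast (Nat.lt_two_pow_self (n := n)).le
    have h2 := (hb n n hn hn).1
    rw [hmin] at h2
    have h3 : (n : ℝ) ^ (1 - δ) = n * (n : ℝ) ^ (-δ) := by
      rw [sub_eq_add_neg, Real.rpow_add (by positivity), Real.rpow_one]
    have h4 : 0 < C⁻¹ * (n * (n : ℝ) ^ (-δ)) := by positivity
    calc C⁻¹ / 2 * (n : ℝ) ^ (1 - δ) = C⁻¹ * (n * (n : ℝ) ^ (-δ)) / 2 := by rw [h3]; ring
      _ < C⁻¹ * (n * (n : ℝ) ^ (-δ)) := by linarith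
      _ = C⁻¹ * n * (n : ℝ) ^ (-δ) := by ring
      _ ≤ _ := h2
  · rintro ε hε ⟨η, hη, h⟩
    -- it suffices to treat `ε ≤ 1`
    obtain ⟨a, ha, C, hC, hup⟩ := upper (ε := min ε 1) (by positivity) (min_le_right _ _)
    -- `f` is antitone in `ε`
    have hmono : ∀ n m : ℕ, 1 ≤ n → (f n m c ε : ℝ) ≤ (f n m c (min ε 1) : ℝ) := by
      intro n m hn
      have hnR : (1 : ℝ) ≤ (n : ℝ) := by exact_mod_cast hn
      refine le_f hn hc1 fun A hA => ?_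
      obtain ⟨I, hI, hIc⟩ := (f_isGreatest (m := m) (ε := ε) hn hc1).1 A hA
      refine ⟨I, fun i hi j hj hij => lt_of_le_of_lt ?_ (hI i hi j hj hij), by rw [hIc]⟩
      exact mul_le_mul_of_nonneg_right (min_le_left _ _) (by linarith)
    -- choose `m` large
    have hlim : Filter.Tendsto (fun m : ℕ => C * (m : ℝ) ^ (-a)) Filter.atTop (nhds (C * 0)) := by
      apply Filter.Tendsto.const_mul
      exact (tendsto_rpow_neg_atTop ha).comp tendsto_natCast_atTop_atTop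
    rw [mul_zero] at hlim
    have hev := (hlim.eventually (gt_mem_nhds hη)).and (Filter.eventually_ge_atTop 1)
    obtain ⟨m, hm, hm1⟩ := hev.exists
    have hmR : (1 : ℝ) ≤ (m : ℝ) := by exact_mod_cast hm1
    have h2 := h (m + 1) m hm1 (by omega)
    have h3 := hmono (m + 1) m (by omega)
    have h4 := hup c hc0 hc (m + 1) m (by omega) hm1
    have hmin : min (m : ℝ) (2 ^ (m + 1)) = m := by
      apply min_eq_left
      have : m < 2 ^ (m + 1) := lt_trans (Nat.lt_succ_self m) (Nat.lt_two_pow_self)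
      exact_mod_cast this.le
    rw [hmin] at h4
    have h5 : η * (m : ℝ) ≤ C * (m : ℝ) ^ (-a) * m := by
      calc η * (m : ℝ) ≤ C * m * (m : ℝ) ^ (-a) := (h2.trans h3).trans h4
        _ = _ := by ring
    have h6 := le_of_mul_le_mul_right h5 (by linarith)
    linarith

end Pool.Agent.Results.MP_cecf76_co.TwoSided
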